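import Pool.Agent.Run7.h98.LB.Defs

/-!
# Direct summands on which homological and numerical equivalence agree
-/

open CategoryTheory AlgebraicGeometry Filter

set_option autoImplicit false

universe u v

namespace Pool.Agent.Run7.H98.DD

open Pool.Agent.H914 VarClass Obj WeilCohomology Pool.Agent.N103.OC Pool.Agent.Run7.H98.CX
  Pool.Agent.Run7.H98.CR Pool.Agent.Run7.H98.LB

/-- `e` is an idempotent in `S` and `e ν e = 0` for all `ν` in `N`. -/
def AvoidingSummand {K : Type*} {V : Type*} [Field K] [AddCommGroup V] [Module K V]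
    (S N : Set (V →ₗ[K] V)) (e : Module.End K V) : Prop :=
  e ∈ S ∧ e * e = e ∧ ∀ ν ∈ N, e * ν * e = 0

variable {k : Type u} [Field k] {𝒱 : VarClass k} {ops : CycleOps 𝒱}

/-- The operators on the cohomology of `Y` induced by the cycles on `Y × Y` of the codimensions
`dim Y + d` with `d` in `Δ` which are numerically equivalent to zero. -/
def numTrivial (W : WeilCohomology.{u, v} ops) (Δ : AddSubmonoid ℤ) (Y : 𝒱.Obj) :
    Set (W.H Y →ₗ[W.K] W.H Y) :=
  {φ | ∃ p : ℕ, (p : ℤ) - Y.dim ∈ Δ ∧ φ ∈ trivOps W Y p}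

/-- `c(Y)`, the largest rank of a direct summand `(Y, e)` of the motive of `Y` (modulo homological
equivalence, rational coefficients) such that homological and numerical equivalence agree for the
endomorphisms of `(Y, e)` of the degrees in `Δ`: if the cycle `z` on `Y × Y` of codimension
`dim Y + d`, where `d` is in `Δ`, is numerically equivalent to zero, then the composition `e z e` is
homologically equivalent to zero. -/
noncomputable def numDim (W : WeilCohomology.{u, v} ops) (Δ : AddSubmonoid ℤ) (Y : 𝒱.Obj) : ℕ :=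
  largestRank (AvoidingSummand (cycOps W Y Y.dim) (numTrivial W Δ Y))

/-- The standard conjecture D for `Y` in codimension `p`: numerical equivalence implies homological
equivalence for the cycles of codimension `p` on `Y`. -/
def HomNum (W : WeilCohomology.{u, v} ops) (Y : 𝒱.Obj) (p : ℕ) : Prop :=
  ∀ z, Y.IsCyc p z → H447.NumEquiv ops Y p z 0 → W.cl Y z = 0

/-- The standard conjecture D for `X × X` in the codimensions `dim X + d` with `d` in `Δ`. -/
def SquareHomNum (W : WeilCohomology.{u, v} ops) (Δ : AddSubmonoid ℤ) (X : 𝒱.Obj) : Prop :=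
  ∀ p : ℕ, (p : ℤ) - X.dim ∈ Δ → HomNum W (X.prod X) p

/-- The standard conjecture D for all varieties and all codimensions. -/
def AllHomNum (W : WeilCohomology.{u, v} ops) : Prop := ∀ (Y : 𝒱.Obj) (p : ℕ), HomNum W Y p

/-- There is a slow function `f` such that `c(Y) ≥ f(b(Y)) b(Y)` for all `Y`. -/
def SlowShare (W : WeilCohomology.{u, v} ops) (c : 𝒱.Obj → ℕ) : Prop :=
  ∃ f, IsSlow f ∧ ∀ Y : 𝒱.Obj, f (cohDim W Y) * cohDim W Y ≤ c Y

/-- The laws for the conjecture D in the degrees in `Δ`: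
* if the conjecture is false for `X × X` then `c(X^n) ≤ b(X)^n √(2 b(X) / (n + 1))` for all
  `n ≥ 1`;
* if there is `ε > 0` such that `c(X^n) ≥ ε b(X^n)` for infinitely many `n` then the conjecture is
  true for `X × X`;
* the conjecture is true for `Y × Y` if and only if `c(Y) = b(Y)`;
* the conjecture is true for `X × X` for all `X` if and only if there is a slow function `f` such
  that `c(Y) ≥ f(b(Y)) b(Y)` for all `Y`. -/
def NumLaws (W : WeilCohomology.{u, v} ops) (Δ : AddSubmonoid ℤ) : Prop :=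
  (∀ X : 𝒱.Obj, ¬ SquareHomNum W Δ X → ∀ n ≥ 1,
    (n + 1) * numDim W Δ (pw X n) ^ 2 ≤ 2 * cohDim W X ^ (2 * n + 1)) ∧
  (∀ X : 𝒱.Obj, (∃ ε : ℝ, 0 < ε ∧ ∃ᶠ n in atTop, ε * cohDim W (pw X n) ≤ numDim W Δ (pw X n)) →
    SquareHomNum W Δ X) ∧
  (∀ Y : 𝒱.Obj, SquareHomNum W Δ Y ↔ numDim W Δ Y = cohDim W Y) ∧
  ((∀ X : 𝒱.Obj, SquareHomNum W Δ X) ↔ SlowShare W (numDim W Δ))

end Pool.Agent.Run7.H98.DD
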