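import Pool.Agent.Run7.h98.DD.Main

/-!
# The laws for the conjecture D
-/

set_option autoImplicit false

open CategoryTheory AlgebraicGeometry Finset TensorProduct Module Filter

universe u v

namespace Pool.Agent.Run7.H98.DD

open Pool.Agent.H914 VarClass Obj WeilCohomology Pool.Agent.N190.CB Pool.Agent.N103.OC
  Pool.Agent.N536.HK Pool.Agent.Run7.H98.CX Pool.Agent.Run7.H98.CR Pool.Agent.H447
  Pool.Agent.H578R3.Mom Pool.Agent.Run7.H98.LB Pool.Agent.Run7.H634.WZ

variable {k : Type u} [Field k] {𝒱 : VarClass k} {ops : CycleOps 𝒱}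
  {W : WeilCohomology.{u, v} ops} {X Y Z : 𝒱.Obj}

variable {Δ : AddSubmonoid ℤ}

lemma square_iff : SquareHomNum W Δ X ↔ ∀ ν ∈ numTrivial W Δ X, ν = 0 := by
  constructor
  · rintro h _ ⟨p, hp, z, hz, hz0, rfl⟩
    rw [h p hp z hz hz0, corr_zero]
  · intro h p hp z hz hz0
    exact corr_inj (h _ ⟨p, hp, z, hz, hz0, rfl⟩)

lemma isAv_zero (W : WeilCohomology.{u, v} ops) (Δ : AddSubmonoid ℤ) (Y : 𝒱.Obj) :
    IsAv W Δ Y 0 :=
  ⟨⟨0, SmVar.IsCyc.zero _ _, by rw [map_zero, corr_zero]⟩, mul_zero _,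
    fun ν _ => by rw [mul_zero]⟩

lemma isAv_one (h : SquareHomNum W Δ Y) : IsAv W Δ Y 1 :=
  ⟨(rat_class W).one Y, mul_one _, fun ν hν => by
    rw [square_iff.1 h ν hν, mul_zero, zero_mul]⟩

lemma numDim_le (W : WeilCohomology.{u, v} ops) (Δ : AddSubmonoid ℤ) (Y : 𝒱.Obj) :
    numDim W Δ Y ≤ cohDim W Y := by
  obtain ⟨e, -, he⟩ := exists_largest (isAv_zero W Δ Y)
  rw [numDim, he]
  exact Submodule.finrank_le _

lemma numDim_iff : SquareHomNum W Δ Y ↔ numDim W Δ Y = cohDim W Y := by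
  constructor
  · intro h
    apply le_antisymm (numDim_le W Δ Y)
    have h2 := le_largest (isAv_one h)
    have h3 : LinearMap.range (1 : Module.End W.K (W.H Y)) = ⊤ := LinearMap.range_id
    rwa [h3, finrank_top] at h2
  · intro h
    obtain ⟨e, he, h1⟩ := exists_largest (isAv_zero W Δ Y)
    rw [numDim, h1] at h
    have h2 : LinearMap.range e = ⊤ := Submodule.eq_top_of_finrank_eq h
    have h3 : e = 1 := by
      apply LinearMap.ext
      intro x
      have h4 : x ∈ LinearMap.range e := by rw [h2]; trivial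
      obtain ⟨y, rfl⟩ := h4
      exact congrArg (fun F : Module.End W.K (W.H Y) => F y) he.2.1
    subst h3
    rw [square_iff]
    intro ν hν
    have h4 := he.2.2 ν hν
    rwa [one_mul, mul_one] at h4

lemma square_of_zero (h : cohDim W X = 0) : SquareHomNum W Δ X := by
  rw [numDim_iff]
  have := numDim_le W Δ X
  omega

lemma tr_mul_cl {p : ℕ} (hp : p ≤ Y.dim) {z w : Y.Cycles} (hz : Y.IsCyc p z)
    (hw : Y.IsCyc (Y.dim - p) w) :
    W.tr Y (W.cl Y z * W.cl Y w) = ((Y.V.degCycle (ops.mul z w) : ℚ) : W.K) := by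
  have h1 := ops.mul_mem hz hw
  rw [Nat.add_sub_cancel' hp] at h1
  rw [← W.cl_mul, W.tr_cl h1]

/-- The conjecture for `Y` from the conjecture for `Y × Y` in the middle codimension. -/
lemma homNum_of_dual (hd : DualCycles ops Y) (h : SquareHomNum W ⊥ Y) (p : ℕ) :
    HomNum W Y p := by
  intro z hz hz0
  by_cases hp : p ≤ Y.dim
  swap
  · have h1 := W.cl_mem hz
    rw [W.gr_eq_bot Y (2 * p) (by omega), Submodule.mem_bot] at h1
    exact h1
  obtain ⟨a, b, ha, hb, hab⟩ := hd (Y.dim - p) (Nat.sub_le _ _)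
  rw [Nat.sub_sub_self hp] at hb
  obtain ⟨ψ, hψ, h1⟩ := (rat_class W).rank hz ha (by omega)
  have h2 : NumR (W.isInternal Y) (ROp W Y) 0 ψ := by
    refine ⟨mem_ratOp.1 hψ, fun y hy => ?_⟩
    rw [neg_zero] at hy
    obtain ⟨η, hη, hadj⟩ := KOp.exists_adjoint (KOp.ofRop hy)
    have hη' : η ∈ KOp W Y Y 0 := KOp.cast hη (by ring)
    have h3 : par (W.isInternal Y) * (ψ * y) =
        ((W.tr Y ∘ₗ LinearMap.mulLeft W.K (W.cl Y a)) ∘ₗ y).smulRight
          (par (W.isInternal Y) (W.cl Y z)) := by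
      apply LinearMap.ext
      intro x
      rw [Module.End.mul_apply, Module.End.mul_apply, h1, map_smul]
      rfl
    have h4 : par (W.isInternal Y) (W.cl Y z) = W.cl Y z := by
      have h5 : par (W.isInternal Y) (W.cl Y z) = (-1 : W.K) ^ (2 * p) • W.cl Y z :=
        scal_apply _ _ (W.cl_mem hz)
      rw [h5, pow_mul, neg_one_sq, one_pow, one_smul]
    rw [h3, LinearMap.trace_smulRight, h4]
    show W.tr Y (W.cl Y a * y (W.cl Y z)) = 0
    rw [W.even_comm (W.cl_mem ha), hadj]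
    have h5 : W.cl Y a ∈ spanCycles W Y ((Y.dim - p : ℕ) : ℤ) :=
      Submodule.subset_span ⟨Y.dim - p, rfl, a, ha, rfl⟩
    have h6 := KOp.span0 hη' (Y.dim - p) h5
    generalize η (W.cl Y a) = w at h6
    induction h6 using Submodule.span_induction with
    | mem w hw =>
      obtain ⟨q, hq, w, hw, rfl⟩ := hw
      obtain rfl : q = Y.dim - p := by exact_mod_cast hq
      rw [tr_mul_cl hp hz hw, hz0 w hw, ← tr_mul_cl (W := W) hp (SmVar.IsCyc.zero _ _) hw, map_zero,
        zero_mul, map_zero]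
    | zero => rw [mul_zero, map_zero]
    | add a b _ _ ha hb => rw [mul_add, map_add, ha, hb, add_zero]
    | smul r a _ ha => rw [mul_smul_comm, map_smul, ha, smul_zero]
  have h3 := square_iff.1 h ψ ⟨Y.dim, by rw [sub_self]; exact zero_mem _,
    triv_of_num (by ring) h2⟩
  have h4 := h1 (W.cl Y b)
  rw [h3, LinearMap.zero_apply] at h4
  have h5 : W.tr Y (W.cl Y a * W.cl Y b) ≠ 0 := by
    rw [← W.even_comm (W.cl_mem hb) (W.cl Y a), tr_mul_cl hp hb ha]
    exact_mod_cast hab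
  exact (smul_eq_zero.1 h4.symm).resolve_left h5

/-- The conjecture for `Y` from the conjecture for `Y × Y`. -/
lemma homNum_of_square (h : ∀ p, HomNum W (Y.prod Y) p) (p : ℕ) : HomNum W Y p := by
  intro z hz hz0
  by_cases hp : p ≤ Y.dim
  swap
  · have h1 := W.cl_mem hz
    rw [W.gr_eq_bot Y (2 * p) (by omega), Submodule.mem_bot] at h1
    exact h1
  have h1 : W.cl (Y.prod Y) (ops.pull (fst Y Y) z) = 0 := by
    refine h p _ (ops.pull_mem _ hz) ?_
    intro y hy
    have hd : p ≤ (Y.prod Y).dim := by rw [dim_prod]; omega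
    have h2 : Y.IsCyc (Y.dim - p) (ops.push (fst Y Y) y) :=
      ops.push_mem (fst Y Y) (q := Y.dim - p) hy (by simp only [dim_prod]; omega)
    have e1 := tr_mul_cl (W := W) hd (ops.pull_mem (fst Y Y) hz) hy
    have e2 := tr_mul_cl (W := W) hp hz h2
    have e3 := tr_mul_cl (W := W) hp (SmVar.IsCyc.zero _ _) h2
    have e4 := tr_mul_cl (W := W) hd (SmVar.IsCyc.zero _ _) hy
    rw [map_zero, zero_mul, map_zero] at e3 e4
    rw [hz0 _ h2, ← e3, W.even_comm (W.cl_mem hz), W.cl_push, W.tr_push] at e2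
    rw [W.cl_pull, W.even_comm (W.map_mem _ (W.cl_mem hz)), e2] at e1
    rw [e4] at e1
    exact_mod_cast e1.symm
  rw [W.cl_pull] at h1
  have h2 : ∀ a b : W.H Y, W.tr Y (W.cl Y z * a) * W.tr Y b = 0 := by
    intro a b
    rw [← W.tr_prod, map_mul (W.map (fst Y Y)), h1, zero_mul, zero_mul, map_zero]
  by_cases htr : ∃ b, W.tr Y b ≠ 0
  · obtain ⟨b, hb⟩ := htr
    exact W.nondeg _ fun a => (mul_eq_zero.1 (h2 a b)).resolve_right hb
  · push Not at htr
    exact W.nondeg _ fun a => htr _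

/-- **The laws for the conjecture D.** -/
theorem num_laws (W : WeilCohomology.{u, v} ops) (Δ : AddSubmonoid ℤ) : NumLaws W Δ := by
  have hbound : ∀ X : 𝒱.Obj, ¬ SquareHomNum W Δ X → ∀ n ≥ 1,
      (n + 1) * numDim W Δ (pw X n) ^ 2 ≤ 2 * cohDim W X ^ (2 * n + 1) := by
    intro X hX n hn
    obtain ⟨n, rfl⟩ := Nat.exists_eq_add_of_le' hn
    obtain ⟨e, he, h1⟩ := exists_largest (isAv_zero W Δ (pw X (n + 1)))
    rw [square_iff] at hX
    push Not at hX
    obtain ⟨ν, ⟨p, hp, hν⟩, h0⟩ := hX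
    rw [numDim, h1]
    exact num_bound hp (num_of_triv hν) h0 n he
  have key := abs_laws' (J := 𝒱.Obj) (cohDim W) (numDim W Δ) (SquareHomNum W Δ)
    (fun X n => pw X n)
    (a := 1 / 2) (by norm_num) (fun X n => cohDim_pw W X n) (fun X hX => numDim_iff.1 hX)
    (fun X hX => square_of_zero hX) (fun X hX n => by
      have h1 := hbound X hX (n + 1) (Nat.succ_pos n)
      have h2 : ((n : ℝ) + 1 + 1) * (numDim W Δ (pw X (n + 1)) : ℝ) ^ 2 ≤
          2 * (cohDim W X : ℝ) ^ (2 * (n + 1) + 1) := by exact_mod_cast h1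
      have h3 : (n : ℝ) + 2 = (n : ℝ) + 1 + 1 := by ring
      rw [h3]
      linarith)
  exact ⟨hbound, key.1, fun Y => numDim_iff, key.2⟩

/-- Conjecture D for all varieties. -/
theorem all_iff (W : WeilCohomology.{u, v} ops) : AllHomNum W ↔ SlowShare W (numDim W ⊤) := by
  rw [← (num_laws W ⊤).2.2.2]
  constructor
  · intro h X p _
    exact h (X.prod X) p
  · intro h Y p
    exact homNum_of_square (fun p => h Y p (AddSubmonoid.mem_top _)) p

theorem all_iff' (W : WeilCohomology.{u, v} ops) (hd : ∀ X : 𝒱.Obj, DualCycles ops X) :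
    AllHomNum W ↔ SlowShare W (numDim W ⊥) := by
  rw [← (num_laws W ⊥).2.2.2]
  constructor
  · intro h X p _
    exact h (X.prod X) p
  · intro h Y p
    exact homNum_of_dual (hd Y) (h Y) p

end Pool.Agent.Run7.H98.DD
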