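import Pool.Agent.Run7.h98.CR.One
import Pool.Agent.W552.Fr

/-!
# Linear algebra: the kernel of a raising operator
-/

set_option autoImplicit false

open Module

namespace Pool.Agent.Run7.H98.DD

open Pool.Agent.H914 Pool.Agent.W552 Pool.Agent.Run7.H634.WZ

section

variable {K V : Type*} [Field K] [AddCommGroup V] [Module K V] [FiniteDimensional K V]

lemma finrank_map_add (p : Submodule K V) (E : Module.End K V) :
    finrank K p = finrank K (p.map E) + finrank K (p ⊓ LinearMap.ker E : Submodule K V) := by
  have h1 := LinearMap.finrank_range_add_finrank_ker (E.domRestrict p)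
  rw [LinearMap.range_domRestrict] at h1
  rw [← h1]
  congr 1
  have h2 : (LinearMap.ker (E.domRestrict p)).map p.subtype = p ⊓ LinearMap.ker E := by
    ext x
    simp only [Submodule.mem_map, LinearMap.mem_ker, LinearMap.domRestrict_apply,
      Submodule.subtype_apply, Subtype.exists, exists_and_left, exists_prop, Submodule.mem_inf]
    constructor
    · rintro ⟨y, hy, hy', rfl⟩
      exact ⟨hy', hy⟩
    · rintro ⟨hy, hy'⟩
      exact ⟨x, hy', hy, rfl⟩
  rw [← h2, Submodule.finrank_map_subtype_eq]

/-- If `e E^k e = 0` for all `k ≥ 1` then the rank of `e` is at most the dimension of the kernel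
of `E`. -/
lemma rank_le_ker {e E : Module.End K V} (he : e * e = e) (h : ∀ k, e * E ^ (k + 1) * e = 0) :
    finrank K (LinearMap.range e) ≤ finrank K (LinearMap.ker E) := by
  set M : Submodule K V := ⨅ k : ℕ, LinearMap.ker (e * E ^ (k + 1)) with hM
  have h1 : LinearMap.range e ≤ M := by
    rintro _ ⟨y, rfl⟩
    rw [hM, Submodule.mem_iInf]
    intro k
    rw [LinearMap.mem_ker]
    exact congrArg (fun F : Module.End K V => F y) (h k)
  have h2 : M.map E ≤ M := by
    rintro _ ⟨y, hy, rfl⟩
    rw [SetLike.mem_coe, hM, Submodule.mem_iInf] at hy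
    rw [hM, Submodule.mem_iInf]
    intro k
    have h3 := hy (k + 1)
    rw [LinearMap.mem_ker, pow_succ, ← mul_assoc] at h3
    rw [LinearMap.mem_ker]
    exact h3
  have h3 : LinearMap.range e ⊓ M.map E = ⊥ := by
    rw [eq_bot_iff]
    rintro x ⟨⟨y, rfl⟩, ⟨m, hm, hm'⟩⟩
    rw [SetLike.mem_coe, hM, Submodule.mem_iInf] at hm
    have h4 := hm 0
    rw [zero_add, pow_one, LinearMap.mem_ker, Module.End.mul_apply, hm', ← Module.End.mul_apply,
      he] at h4
    rw [Submodule.mem_bot]
    exact h4
  have h4 := Submodule.finrank_sup_add_finrank_inf_eq (LinearMap.range e) (M.map E)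
  rw [h3, finrank_bot, add_zero] at h4
  have h5 := Submodule.finrank_mono (sup_le h1 h2)
  have h6 := finrank_map_add M E
  have h7 := Submodule.finrank_mono (inf_le_right : M ⊓ LinearMap.ker E ≤ LinearMap.ker E)
  omega

end

section

variable {K V : Type*} [Field K] [CharZero K] [AddCommGroup V] [Module K V]
  [FiniteDimensional K V]

lemma two_apply (x : V) : (2 : Module.End K V) x = (2 : K) • x := by
  rw [ofNat_smul_eq_nsmul]; rfl

/-- The kernel of the raising operator. -/
lemma ker_le {h e f : Module.End K V} (t : Sl2 h e f) (hd : ⨆ μ, h.eigenspace μ = ⊤) :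
    finrank K (LinearMap.ker e) ≤ finrank K (h.eigenspace 0) + finrank K (h.eigenspace 1) := by
  set U : Submodule K V := ⨆ m : ℕ, h.eigenspace (m : K) with hU
  set U' : Submodule K V := ⨆ m : ℕ, h.eigenspace ((m + 2 : ℕ) : K) with hU'
  have hstable : ∀ x ∈ LinearMap.ker e, h x ∈ LinearMap.ker e := by
    intro x hx
    have h1 := congrArg (fun F : Module.End K V => F x) t.he
    simp only [LinearMap.sub_apply, Module.End.mul_apply] at h1
    rw [LinearMap.mem_ker] at hx ⊢
    rw [hx, map_zero, map_zero, zero_sub, neg_eq_zero] at h1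
    exact h1
  have h1 : LinearMap.ker e ≤ U := by
    have h2 := Submodule.inf_iSup_genEigenspace hstable 1
    have h3 : (⨆ μ, h.genEigenspace μ 1) = ⊤ := hd
    rw [h3, inf_top_eq] at h2
    rw [h2]
    refine iSup_le fun μ x hx => ?_
    obtain ⟨hx1, hx2⟩ := hx
    have hx2' : x ∈ h.eigenspace μ := hx2
    by_cases hx0 : x = 0
    · rw [hx0]
      exact Submodule.zero_mem _
    · obtain ⟨m, hm, -⟩ := Sl2.exists_nat t.neg_swap (v := x) (μ := μ)
        (by rw [LinearMap.neg_apply, LinearMap.mem_ker.1 hx1, neg_zero])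
        (by rw [LinearMap.neg_apply, Module.End.mem_eigenspace_iff.1 hx2', neg_smul]) hx0
      rw [hm] at hx2'
      exact Submodule.mem_iSup_of_mem m hx2'
  have h2 : U' ≤ U.map e := by
    refine iSup_le fun m y hy => ?_
    obtain ⟨z, hz, hz'⟩ := exists_preimage' t (P := fun d x => h x = (d : K) • x)
      (fun d => by rw [map_zero, smul_zero])
      (fun {d x y} hx hy => by rw [map_add, hx, hy, smul_add])
      (fun q {d x} hx => by rw [map_smul, hx, smul_comm])
      (fun {d x} hx => by
        have h1 := congrArg (fun F => F x) t.he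
        simp only [LinearMap.sub_apply, Module.End.mul_apply, hx, map_smul, two_apply] at h1
        rw [sub_eq_iff_eq_add] at h1
        rw [h1]
        push_cast
        module)
      (fun {d x} hx => by
        have h1 := congrArg (fun F => F x) t.hf
        simp only [LinearMap.sub_apply, Module.End.mul_apply, hx, map_smul, LinearMap.neg_apply,
          two_apply] at h1
        rw [sub_eq_iff_eq_add] at h1
        rw [h1]
        push_cast
        module)
      (fun {d x} hx => hx) (m + 2) (y := y)
      (by simpa using Module.End.mem_eigenspace_iff.1 hy)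
    have hz2 : h z = -((m + 2 : ℕ) : K) • z := by simpa using hz
    refine ⟨(e ^ (m + 1)) z, ?_, ?_⟩
    · apply Submodule.mem_iSup_of_mem m
      rw [Module.End.mem_eigenspace_iff, Sl2.h_e_pow t hz2]
      congr 1
      push_cast
      ring
    · rw [← hz', ← Module.End.mul_apply, ← pow_succ']
  have h3 : U ≤ U' ⊔ (h.eigenspace 0 ⊔ h.eigenspace 1) := by
    refine iSup_le fun m => ?_
    match m with
    | 0 =>
      rw [Nat.cast_zero]
      exact le_sup_left.trans le_sup_right
    | 1 =>
      rw [Nat.cast_one]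
      exact le_sup_right.trans le_sup_right
    | m + 2 => exact (le_iSup (fun m : ℕ => h.eigenspace ((m + 2 : ℕ) : K)) m).trans le_sup_left
  have h4 := finrank_map_add U e
  have h5 : U ⊓ LinearMap.ker e = LinearMap.ker e := inf_eq_right.2 h1
  rw [h5] at h4
  have h6 := Submodule.finrank_mono h2
  have h7 := Submodule.finrank_mono h3
  have h8 := Submodule.finrank_add_le_finrank_add_finrank U' (h.eigenspace 0 ⊔ h.eigenspace 1)
  have h9 := Submodule.finrank_add_le_finrank_add_finrank (h.eigenspace 0) (h.eigenspace 1)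
  omega

omit [CharZero K] [FiniteDimensional K V] in
/-- A pseudo-inverse of an operator with square zero. -/
lemma exists_pseudo {ν : Module.End K V} (hsq : ν * ν = 0) :
    ∃ f : Module.End K V, ν * f * ν = ν ∧ f * ν * f = f ∧ f * f = 0 := by
  obtain ⟨g0, hg0⟩ : ∃ g : Module.End K V, ν * g * ν = ν := by
    obtain ⟨p, hp⟩ := ν.rangeRestrict.exists_rightInverse_of_surjective
      (LinearMap.range_rangeRestrict ν)
    obtain ⟨q, hq⟩ := (LinearMap.range ν).subtype.exists_leftInverse_of_injective
      (Submodule.ker_subtype _)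
    refine ⟨p ∘ₗ q, ?_⟩
    apply LinearMap.ext
    intro x
    have h1 : q (ν x) = ⟨ν x, ⟨x, rfl⟩⟩ :=
      congrArg (fun F : LinearMap.range ν →ₗ[K] LinearMap.range ν => F ⟨ν x, ⟨x, rfl⟩⟩) hq
    have h2 := congrArg (fun F : LinearMap.range ν →ₗ[K] LinearMap.range ν => F ⟨ν x, ⟨x, rfl⟩⟩) hp
    simp only [LinearMap.comp_apply, LinearMap.id_apply] at h2
    rw [Module.End.mul_apply, Module.End.mul_apply, LinearMap.comp_apply, h1]
    exact congrArg Subtype.val h2
  set g := g0 * ν * g0 with hg
  have h1 : ν * g * ν = ν := by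
    calc ν * (g0 * ν * g0) * ν = (ν * g0 * ν) * g0 * ν := by simp only [mul_assoc]
      _ = ν := by rw [hg0, hg0]
  have h2 : g * ν * g = g := by
    calc g0 * ν * g0 * ν * (g0 * ν * g0) = g0 * (ν * g0 * ν) * (g0 * ν * g0) := by
          simp only [mul_assoc]
      _ = g0 * ν * (g0 * ν * g0) := by rw [hg0]
      _ = g0 * (ν * g0 * ν) * g0 := by simp only [mul_assoc]
      _ = g0 * ν * g0 := by rw [hg0]
  clear_value g
  refine ⟨g - ν * g * g, ?_, ?_, ?_⟩
  · have h3 : ν * (g - ν * g * g) * ν = ν * g * ν - (ν * ν) * g * g * ν := by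
      rw [mul_sub, sub_mul]; simp only [mul_assoc]
    rw [h3, h1, hsq, zero_mul, zero_mul, zero_mul, sub_zero]
  · have h3 : (g - ν * g * g) * ν * (g - ν * g * g) = (g * ν * g - g * (ν * ν) * g * g) -
        (ν * g * (g * ν * g) - ν * g * g * (ν * ν) * g * g) := by
      rw [sub_mul, sub_mul, mul_sub, mul_sub]; simp only [mul_assoc]
    rw [h3, h2, hsq, mul_zero, zero_mul, zero_mul, sub_zero, mul_zero, zero_mul, zero_mul,
      sub_zero]
  · have h3 : (g - ν * g * g) * (g - ν * g * g) = (g * g - (g * ν * g) * g) -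
        ν * g * (g * g - (g * ν * g) * g) := by
      rw [sub_mul, mul_sub, mul_sub, mul_sub]; simp only [mul_assoc]
    rw [h3, h2, sub_self, mul_zero, sub_zero]

end

end Pool.Agent.Run7.H98.DD
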