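import Pool.Agent.Run7.h98.LB.Laws
import Pool.Agent.Run7.h98.DD.Lin
import Pool.Agent.Run7.h98.DD.Defs

/-!
# The bound for the conjecture D
-/

set_option autoImplicit false

open CategoryTheory AlgebraicGeometry Finset TensorProduct Module Filter

universe u v

namespace Pool.Agent.Run7.H98.DD

open Pool.Agent.H914 VarClass Obj WeilCohomology Pool.Agent.N190.CB Pool.Agent.N103.OC
  Pool.Agent.N536.HK Pool.Agent.Run7.H98.CX Pool.Agent.Run7.H98.CR Pool.Agent.H447
  Pool.Agent.H578R3.Mom Pool.Agent.Run7.H98.LB Pool.Agent.Run7.H634.WZ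

section comb

variable {Q : Type*} [CommGroup Q]

/-- All coefficients are small. -/
theorem walk_bound_any (htf : ∀ (x : Q) (n : ℕ), 0 < n → x ^ n = 1 → x = 1) (B : Multiset Q)
    {x y : Q} (hx : x ∈ B) (hy : y ∈ B) (hxy : x ≠ y) (n : ℕ) (t : Q) :
    2 * (n + 1) * ((P B ^ n).coeff t) ^ 2 ≤ B.card ^ (2 * n + 1) := by
  obtain ⟨B1, rfl⟩ := Multiset.exists_cons_of_mem hx
  have hy1 : y ∈ B1 := by
    rcases Multiset.mem_cons.1 hy with h1 | h1
    · exact absurd h1.symm hxy
    · exact h1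
  obtain ⟨R, rfl⟩ := Multiset.exists_cons_of_mem hy1
  have hc : (x ::ₘ y ::ₘ R).card = R.card + 2 := by
    rw [Multiset.card_cons, Multiset.card_cons]
  have h2 : (P (x ::ₘ y ::ₘ R) ^ n).coeff t ≤ ∑ m ∈ range (n + 1),
      n.choose m * (m.choose (m / 2) * ((x ::ₘ y ::ₘ R).card - 2) ^ (n - m)) := by
    rw [P_cons, P_cons, ← add_assoc, add_pow, MonoidAlgebra.coeff_sum, Finset.sum_apply']
    apply Finset.sum_le_sum
    intro m _
    rw [← nsmul_eq_mul', MonoidAlgebra.coeff_smul, Finsupp.smul_apply, smul_eq_mul]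
    apply Nat.mul_le_mul_left
    have h3 := coeff_mul_le (two_pow_coeff (x := x) (y := y) (m := m) (fun k hk h4 => by
      apply hxy
      have h5 := htf _ k hk h4
      rwa [mul_inv_eq_one] at h5)) (P R ^ (n - m)) t
    rw [map_pow, aug_P] at h3
    rw [hc, Nat.add_sub_cancel]
    exact h3
  calc 2 * (n + 1) * ((P (x ::ₘ y ::ₘ R) ^ n).coeff t) ^ 2
      ≤ 2 * (n + 1) * (∑ m ∈ range (n + 1),
      n.choose m * (m.choose (m / 2) * ((x ::ₘ y ::ₘ R).card - 2) ^ (n - m))) ^ 2 := by
        gcongr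
    _ ≤ _ := sum_bound (by rw [hc]; omega) n

end comb

variable {k : Type u} [Field k] {𝒱 : VarClass k} {ops : CycleOps 𝒱}
  {W : WeilCohomology.{u, v} ops} {X Y Z : 𝒱.Obj}

/-! ### Diagonalizable operators -/

lemma iSup_ext {a : Module.End W.K (W.H Y)} {b : Module.End W.K (W.H Z)}
    (ha : ⨆ μ, a.eigenspace μ = ⊤) (hb : ⨆ μ, b.eigenspace μ = ⊤) :
    ⨆ μ, (extL W Y Z a + extR W Y Z b).eigenspace μ = ⊤ := by
  have key : ∀ (x : W.H Y) (y : W.H Z), W.map (fst Y Z) x * W.map (snd Y Z) y ∈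
      ⨆ μ, (extL W Y Z a + extR W Y Z b).eigenspace μ := by
    intro x y
    have hx : x ∈ ⨆ μ, a.eigenspace μ := by rw [ha]; trivial
    have hy : y ∈ ⨆ μ, b.eigenspace μ := by rw [hb]; trivial
    induction hx using Submodule.iSup_induction' with
    | mem μ x hx =>
      induction hy using Submodule.iSup_induction' with
      | mem ν y hy =>
        apply Submodule.mem_iSup_of_mem (μ + ν)
        rw [Module.End.mem_eigenspace_iff] at hx hy ⊢
        have h1 := extSum_tmul (W := W) a b x y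
        rw [extSum] at h1
        rw [h1, hx, hy, map_smul, map_smul, smul_mul_assoc, mul_smul_comm, ← add_smul]
      | zero => rw [map_zero, mul_zero]; exact Submodule.zero_mem _
      | add y y' _ _ h h' => rw [map_add, mul_add]; exact Submodule.add_mem _ h h'
    | zero => rw [map_zero, zero_mul]; exact Submodule.zero_mem _
    | add x x' _ _ h h' => rw [map_add, add_mul]; exact Submodule.add_mem _ h h'
  rw [eq_top_iff]
  intro c _
  exact W.kunneth_induction (p := fun c => c ∈ ⨆ μ, (extL W Y Z a + extR W Y Z b).eigenspace μ)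
    (fun a b ha hb => Submodule.add_mem _ ha hb) (fun i j a _ b _ => key a b) c

lemma iSup_dl {a : Module.End W.K (W.H X)} (ha : ⨆ μ, a.eigenspace μ = ⊤) (n : ℕ) :
    ⨆ μ, (dl W a n).eigenspace μ = ⊤ := by
  induction n with
  | zero => exact ha
  | succ n ih => exact iSup_ext ih ha

/-- The kernel of the sum of the operators on the factors. -/
theorem ker_bound {ν : Module.End W.K (W.H X)} (h0 : ν ≠ 0) (hsq : ν * ν = 0) (n : ℕ) :
    (n + 1 + 1) * finrank W.K (LinearMap.ker (dl W ν n)) ^ 2 ≤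
      2 * cohDim W X ^ (2 * (n + 1) + 1) := by
  obtain ⟨f, h1, h2, h3⟩ := exists_pseudo hsq
  set h := ν * f - f * ν with hh
  have hhν : h * ν - ν * h = ν + ν := by
    rw [hh, sub_mul, mul_sub, h1, mul_assoc f ν ν, hsq, mul_zero, ← mul_assoc ν ν f, hsq, zero_mul,
      ← mul_assoc ν f ν, h1]
    abel
  have hhf : h * f - f * h = -(f + f) := by
    rw [hh, sub_mul, mul_sub, h2, mul_assoc ν f f, h3, mul_zero, ← mul_assoc f ν f, h2,
      ← mul_assoc f f ν, h3, zero_mul]
    abel
  have t : Sl2 (dl W h n) (dl W ν n) (dl W f n) := by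
    refine ⟨?_, ?_, ?_⟩
    · rw [← dl_comm]
    · rw [← dl_comm, hhν, dl_add', two_mul]
    · rw [← dl_comm, hhf, two_mul, ← dl_add']
      have h4 := dl_sub (W := W) (X := X) 0 (f + f) n
      have h5 : dl W (0 : Module.End W.K (W.H X)) n = 0 := by
        have h6 := dl_sub (W := W) (X := X) 0 0 n
        rw [sub_self, sub_self] at h6
        exact h6
      rw [h5, zero_sub, zero_sub] at h4
      exact h4
  -- the eigenvectors
  have hp : h * (ν * f) = ν * f := by
    rw [hh, sub_mul, ← mul_assoc (ν * f) ν f, h1, mul_assoc f ν (ν * f), ← mul_assoc ν ν f, hsq,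
      zero_mul, mul_zero, sub_zero]
  have hq : h * (f * ν) = -(f * ν) := by
    rw [hh, sub_mul, ← mul_assoc (f * ν) f ν, h2, mul_assoc ν f (f * ν), ← mul_assoc f f ν, h3,
      zero_mul, mul_zero, zero_sub]
  have hr : h * (1 - ν * f - f * ν) = 0 := by
    rw [mul_sub, mul_sub, mul_one, hp, hq, hh]
    abel
  have hd : ⨆ μ, h.eigenspace μ = ⊤ := by
    rw [eq_top_iff]
    intro x _
    have h4 : x = (ν * f) x + (f * ν) x + (1 - ν * f - f * ν) x := by
      simp only [LinearMap.sub_apply, Module.End.one_apply]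
      abel
    rw [h4]
    refine Submodule.add_mem _ (Submodule.add_mem _ ?_ ?_) ?_
    · apply Submodule.mem_iSup_of_mem 1
      rw [Module.End.mem_eigenspace_iff, one_smul]
      exact congrArg (fun F : Module.End W.K (W.H X) => F x) hp
    · apply Submodule.mem_iSup_of_mem (-1)
      rw [Module.End.mem_eigenspace_iff, neg_one_smul]
      exact congrArg (fun F : Module.End W.K (W.H X) => F x) hq
    · apply Submodule.mem_iSup_of_mem 0
      rw [Module.End.mem_eigenspace_iff, zero_smul]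
      exact congrArg (fun F : Module.End W.K (W.H X) => F x) hr
  obtain ⟨w, hw⟩ : ∃ w, ν w ≠ 0 := by
    by_contra hcon
    push Not at hcon
    exact h0 (LinearMap.ext hcon)
  let L := AlgebraicClosure W.K
  have hx : Multiplicative.ofAdd (1 : L) ∈ eigM L h := by
    have h4 := eig_mem' L (f := h) (x := ν w) (μ := 1) hw (by
      rw [one_smul, hh, LinearMap.sub_apply]
      have h5 := congrArg (fun F : Module.End W.K (W.H X) => F w) h1
      have h6 := congrArg (fun F : Module.End W.K (W.H X) => F w) hsq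
      simp only [Module.End.mul_apply, LinearMap.zero_apply] at h5 h6 ⊢
      rw [h5, h6, map_zero, sub_zero])
    rwa [map_one] at h4
  have hy : Multiplicative.ofAdd (-1 : L) ∈ eigM L h := by
    have h4 := eig_mem' L (f := h) (x := f (ν w)) (μ := -1) (fun h5 => by
      have h6 := congrArg (fun F : Module.End W.K (W.H X) => F w) h1
      simp only [Module.End.mul_apply] at h6
      rw [h5, map_zero] at h6
      exact hw h6.symm) (by
      have h5 := congrArg (fun F : Module.End W.K (W.H X) => F w) hq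
      simp only [Module.End.mul_apply, LinearMap.neg_apply] at h5
      rw [h5, neg_one_smul])
    rwa [map_neg, map_one] at h4
  have hxy : Multiplicative.ofAdd (1 : L) ≠ Multiplicative.ofAdd (-1 : L) := by
    intro h4
    have h5 : (1 : L) = -1 := Multiplicative.ofAdd.injective h4
    have h6 : (2 : L) = 0 := by linear_combination h5
    exact two_ne_zero h6
  have htf : ∀ (x : Multiplicative L) (n : ℕ), 0 < n → x ^ n = 1 → x = 1 := fun x r hr hx => by
    have h6 : (r : L) * Multiplicative.toAdd x = 0 := by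
      have h7 := congrArg Multiplicative.toAdd hx
      rwa [toAdd_pow, toAdd_one, nsmul_eq_mul] at h7
    have h7 : (r : L) ≠ 0 := by exact_mod_cast hr.ne'
    exact Multiplicative.toAdd.injective ((mul_eq_zero.1 h6).resolve_left h7)
  have hE : ∀ μ : W.K, 2 * (n + 1 + 1) * finrank W.K ((dl W h n).eigenspace μ) ^ 2 ≤
      cohDim W X ^ (2 * (n + 1) + 1) := by
    intro μ
    have h4 : finrank W.K ((dl W h n).eigenspace μ) ≤
        finrank W.K ((dl W h n).maxGenEigenspace μ) :=
      Submodule.finrank_mono (Module.End.genEigenspace_le_maximal _ _ 1)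
    have h5 := h4.trans (finrank_gen_le L _ _)
    rw [P_dl] at h5
    have h6 := walk_bound_any htf _ hx hy hxy (n + 1)
      (Multiplicative.ofAdd (algebraMap W.K L μ))
    rw [card_eigM] at h6
    refine le_trans ?_ h6
    gcongr
  have h4 := ker_le t (iSup_dl hd n)
  have h5 := hE 0
  have h6 := hE 1
  set A := finrank W.K ((dl W h n).eigenspace 0)
  set B := finrank W.K ((dl W h n).eigenspace 1)
  set C := cohDim W X ^ (2 * (n + 1) + 1)
  calc (n + 1 + 1) * finrank W.K (LinearMap.ker (dl W ν n)) ^ 2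
      ≤ (n + 1 + 1) * (A + B) ^ 2 := by gcongr
    _ ≤ (n + 1 + 1) * (2 * (A ^ 2 + B ^ 2)) := by
        gcongr
        exact add_sq_le
    _ = 2 * (n + 1 + 1) * A ^ 2 + 2 * (n + 1 + 1) * B ^ 2 := by ring
    _ ≤ C + C := Nat.add_le_add h5 h6
    _ = 2 * C := by ring

/-! ### Numerically trivial operators -/

lemma num_iff {d : ℤ} {x : Module.End W.K (W.H Y)} :
    NumR (W.isInternal Y) (ROp W Y) d x ↔ ROp W Y d x ∧ Nu W Y d x :=
  ⟨fun h => ⟨h.1, nu_of_num h⟩, fun h => ⟨h.1, fun y hy => h.2.2 y (KOp.ofRop hy)⟩⟩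

lemma num_pow' {d : ℤ} {x : Module.End W.K (W.H Y)}
    (hx : NumR (W.isInternal Y) (ROp W Y) d x) (r : ℕ) :
    NumR (W.isInternal Y) (ROp W Y) ((r + 1 : ℕ) * d) (x ^ (r + 1)) := by
  rw [pow_succ]
  exact (NumR.mul_left rop_opAlg (rop_opAlg.pow hx.1 r) hx).cast (by push_cast; ring)

lemma num_dl {d : ℤ} {x : Module.End W.K (W.H X)}
    (hx : NumR (W.isInternal X) (ROp W X) d x) (n : ℕ) :
    NumR (W.isInternal (pw X (n + 1))) (ROp W (pw X (n + 1))) d (dl W x n) := by
  rw [num_iff] at hx ⊢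
  exact ⟨dl_rop hx.1 n, dl_nu hx.2 n⟩

lemma corr_inj {c : W.H (X.prod X)} (h : W.corr c = 0) : c = 0 := by
  apply corr_bijective.1
  show W.corr c = W.corr 0
  rw [h, corr_zero]

/-- The operators induced by cycles which are numerically equivalent to zero. -/
lemma num_of_triv {p : ℕ} {x : Module.End W.K (W.H Y)} (hx : x ∈ trivOps W Y p) :
    NumR (W.isInternal Y) (ROp W Y) ((p : ℤ) - Y.dim) x := by
  obtain ⟨z, hz, hz0, rfl⟩ := hx
  by_cases hp : p ≤ 2 * Y.dim
  · have h1 := (numEquiv_iff' (W := W) hp hz (SmVar.IsCyc.zero _ _)).1 hz0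
    rw [map_zero, corr_zero] at h1
    have h2 := NumR.neg rop_opAlg h1
    have hneg : ∀ a : Module.End W.K (W.H Y), -(0 - a) = a := fun a => by rw [zero_sub, neg_neg]
    rwa [hneg] at h2
  · have h1 := W.cl_mem hz
    rw [W.gr_eq_bot (Y.prod Y) (2 * p) (by rw [dim_prod]; omega), Submodule.mem_bot] at h1
    rw [h1, corr_zero]
    exact NumR.zero rop_opAlg _

lemma triv_of_num {p : ℕ} {d : ℤ} (hd : (p : ℤ) = Y.dim + d) {x : Module.End W.K (W.H Y)}
    (hx : NumR (W.isInternal Y) (ROp W Y) d x) : x ∈ trivOps W Y p := by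
  by_cases hp : p ≤ 2 * Y.dim
  · obtain ⟨z, hz, rfl⟩ := exists_of_rop (p := p) hd hx.1
    refine ⟨z, hz, (numEquiv_iff' (W := W) hp hz (SmVar.IsCyc.zero _ _)).2 ?_, rfl⟩
    rw [map_zero, corr_zero, zero_sub]
    exact (NumR.neg rop_opAlg hx).cast (by omega)
  · obtain ⟨z, hz, rfl⟩ := exists_of_rop (p := p) hd hx.1
    have h1 := W.cl_mem hz
    rw [W.gr_eq_bot (Y.prod Y) (2 * p) (by rw [dim_prod]; omega), Submodule.mem_bot] at h1
    rw [h1, corr_zero]
    exact zero_triv p

/-- The property of the operators in the definition of the number `c(Y)`. -/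
abbrev IsAv (W : WeilCohomology.{u, v} ops) (Δ : AddSubmonoid ℤ) (Y : 𝒱.Obj)
    (e : Module.End W.K (W.H Y)) : Prop :=
  AvoidingSummand (cycOps W Y Y.dim) (numTrivial W Δ Y) e

lemma IsAv.avoid {Δ : AddSubmonoid ℤ} {e : Module.End W.K (W.H Y)} (he : IsAv W Δ Y e) {d : ℤ}
    (hd : d ∈ Δ) {x : Module.End W.K (W.H Y)} (hx : NumR (W.isInternal Y) (ROp W Y) d x) :
    e * x * e = 0 := by
  by_cases h0 : 0 ≤ (Y.dim : ℤ) + d
  · obtain ⟨p, hp⟩ := Int.eq_ofNat_of_zero_le h0
    exact he.2.2 x ⟨p, by rw [← hp, add_sub_cancel_left]; exact hd, triv_of_num hp.symm hx⟩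
  · obtain ⟨A, ⟨q, hq, -⟩ | ⟨-, hA⟩, rfl⟩ := hx.1
    · omega
    · rw [hA W, mul_zero, zero_mul]

/-- **The bound for the conjecture D.** -/
theorem num_bound {Δ : AddSubmonoid ℤ} {d : ℤ} (hd : d ∈ Δ) {ν : Module.End W.K (W.H X)}
    (hν : NumR (W.isInternal X) (ROp W X) d ν) (h0 : ν ≠ 0) (n : ℕ)
    {e : Module.End W.K (W.H (pw X (n + 1)))} (he : IsAv W Δ (pw X (n + 1)) e) :
    (n + 1 + 1) * finrank W.K (LinearMap.range e) ^ 2 ≤ 2 * cohDim W X ^ (2 * (n + 1) + 1) := by
  have hmem : ∀ (r : ℕ) (d : ℤ), d ∈ Δ → ((r + 1 : ℕ) : ℤ) * d ∈ Δ := by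
    intro r d hd
    rw [← nsmul_eq_mul]
    exact AddSubmonoid.nsmul_mem _ hd _
  by_cases hnil : IsNilpotent ν
  · classical
    obtain ⟨m, hm, hmin⟩ : ∃ m, ν ^ m = 0 ∧ ∀ l < m, ν ^ l ≠ 0 :=
      ⟨Nat.find hnil, Nat.find_spec hnil, fun l hl => Nat.find_min hnil hl⟩
    have hm2 : 2 ≤ m := by
      by_contra h1
      have h2 : m = 0 ∨ m = 1 := by omega
      rcases h2 with rfl | rfl
      · apply h0
        rw [← mul_one ν, ← pow_zero ν, hm, mul_zero]
      · apply h0
        rw [← pow_one ν, hm]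
    obtain ⟨r, rfl⟩ := Nat.exists_eq_add_of_le' hm2
    have h1 : ν ^ (r + 1) ≠ 0 := hmin _ (by omega)
    have h2 : ν ^ (r + 1) * ν ^ (r + 1) = 0 := by
      rw [← pow_add, show r + 1 + (r + 1) = r + 2 + r by ring, pow_add, hm, zero_mul]
    have h3 := num_dl (num_pow' hν r) n
    refine le_trans ?_ (ker_bound h1 h2 n)
    gcongr
    exact rank_le_ker he.2.1 fun j => he.avoid (hmem j _ (hmem r _ hd)) (num_pow' h3 j)
  · have h3 := num_dl hν n
    have h4 := rank_le_ker he.2.1 fun j => he.avoid (hmem j _ hd) (num_pow' h3 j)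
    have h5 : finrank W.K (LinearMap.ker (dl W ν n)) ≤
        finrank W.K ((dl W ν n).maxGenEigenspace 0) := by
      apply Submodule.finrank_mono
      intro x hx
      rw [End.mem_maxGenEigenspace]
      exact ⟨1, by rw [pow_one, zero_smul, sub_zero]; exact hx⟩
    have h6 := gen_bound hnil n
    have h7 : 2 * (n + 1 + 1) * finrank W.K (LinearMap.range e) ^ 2 ≤
        cohDim W X ^ (2 * (n + 1) + 1) := by
      refine le_trans ?_ h6
      gcongr
      exact h4.trans h5
    have h8 : (n + 1 + 1) * finrank W.K (LinearMap.range e) ^ 2 ≤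
        2 * (n + 1 + 1) * finrank W.K (LinearMap.range e) ^ 2 := by
      gcongr
      omega
    omega

end Pool.Agent.Run7.H98.DD
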